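import Mathlib

/-!
# The equitable `U_q(sl_2)`-action on a Leonard pair of `q`-Racah type

Let `A, A*` be a Leonard pair whose parameter array is of `q`-Racah type with parameters
`a, b, c, q`, and let `A^ε` be the third map defined from `A` and `A*`. We show that the underlying
space always carries an irreducible `U_q(sl_2)`-module structure for which `A, A*, A^ε` are given by
the three formulas in the equitable generators `X, Y, Z`; no condition on `c` is needed, so `A^ε`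
may be non-diagonalizable.

Proof idea: in the basis in which `A` is lower bidiagonal with diagonal `θ_d, ..., θ_0` and `A*` is
upper bidiagonal with diagonal `θ*_0, ..., θ*_d` let `X` be diagonal with entries `q^(d-2i)`, let
`Y` be lower bidiagonal and `Z` be upper bidiagonal, both with diagonal entries `q^(2i-d)`. The two
formulas for `A` and `A*` determine the other entries of `Y` and `Z`, because the numbers one has to
divide by are factors of the entries `φ_i`, which are nonzero since `A, A*` act irreducibly.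
-/

set_option autoImplicit false

open Module

namespace Pool.Agent.Results.MP_dc3d2a_al.EquitableAction

universe u v

variable {K : Type u} [Field K] {V : Type v} [AddCommGroup V] [Module K V]

/-- The square matrix `M` is irreducible tridiagonal: its entries vanish except on the diagonal, the
subdiagonal and the superdiagonal, and the entries on the subdiagonal and the superdiagonal are all
nonzero. -/
def IsIrredTridiag {d : ℕ} (M : Matrix (Fin (d + 1)) (Fin (d + 1)) K) : Prop :=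
  (∀ i j : Fin (d + 1), (i : ℕ) + 1 < (j : ℕ) ∨ (j : ℕ) + 1 < (i : ℕ) → M i j = 0) ∧
  (∀ i j : Fin (d + 1), (i : ℕ) + 1 = (j : ℕ) → M i j ≠ 0 ∧ M j i ≠ 0)

/-- The linear maps `A, A*` form a Leonard pair on `V`, a space of dimension `d + 1`: some basis makes
`A` diagonal and `A*` irreducible tridiagonal, and some basis makes `A*` diagonal and `A` irreducible
tridiagonal. -/
def IsLeonardPair (d : ℕ) (A Astar : V →ₗ[K] V) : Prop :=
  (∃ v : Basis (Fin (d + 1)) K V, (LinearMap.toMatrix v v A).IsDiag ∧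
    IsIrredTridiag (LinearMap.toMatrix v v Astar)) ∧
  (∃ v : Basis (Fin (d + 1)) K V, (LinearMap.toMatrix v v Astar).IsDiag ∧
    IsIrredTridiag (LinearMap.toMatrix v v A))

/-- The lower bidiagonal matrix with diagonal `θ 0, ..., θ d` and all subdiagonal entries `1`. -/
def lowerBidiag (d : ℕ) (θ : ℕ → K) : Matrix (Fin (d + 1)) (Fin (d + 1)) K :=
  Matrix.of fun i j => if i = j then θ i else if (i : ℕ) = (j : ℕ) + 1 then 1 else 0

/-- The upper bidiagonal matrix with diagonal `θ 0, ..., θ d` and superdiagonal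
`φ 1, ..., φ d`. -/
def upperBidiag (d : ℕ) (θ φ : ℕ → K) : Matrix (Fin (d + 1)) (Fin (d + 1)) K :=
  Matrix.of fun i j => if i = j then θ i else if (i : ℕ) + 1 = (j : ℕ) then φ j else 0

/-- The pair `A, A*` has parameter array `(θ_i, θ*_i (0 ≤ i ≤ d); φ_i, ϕ_i (1 ≤ i ≤ d))`. -/
def HasParameterArray (d : ℕ) (A Astar : V →ₗ[K] V) (θ θstar φ ϕ : ℕ → K) : Prop :=
  (∃ v : Basis (Fin (d + 1)) K V, LinearMap.toMatrix v v A = lowerBidiag d θ ∧
    LinearMap.toMatrix v v Astar = upperBidiag d θstar φ) ∧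
  (∃ v : Basis (Fin (d + 1)) K V, LinearMap.toMatrix v v A = lowerBidiag d (fun i => θ (d - i)) ∧
    LinearMap.toMatrix v v Astar = upperBidiag d θstar ϕ)

/-- `λ_i(x) = x q^(2i-d) + x⁻¹ q^(d-2i)`. -/
noncomputable def lam (q : K) (d : ℕ) (x : K) (i : ℕ) : K :=
  x * q ^ (2 * (i : ℤ) - d) + x⁻¹ * q ^ ((d : ℤ) - 2 * i)

/-- `u_i = (q^(-i) - q^i) (q^(d-i+1) - q^(i-d-1))`. -/
noncomputable def uu (q : K) (d i : ℕ) : K :=
  (q ^ (-(i : ℤ)) - q ^ (i : ℤ)) * (q ^ ((d : ℤ) - i + 1) - q ^ ((i : ℤ) - d - 1))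

/-- `r_i(x) = q^(-i) - x q^(i-d-1)`. -/
noncomputable def rr (q : K) (d i : ℕ) (x : K) : K :=
  q ^ (-(i : ℤ)) - x * q ^ ((i : ℤ) - d - 1)

/-- The first split sequence `φ_i = q^(d+1)/(ab) u_i r_i(abc) r_i(ab/c)`. -/
noncomputable def varphi (a b c q : K) (d i : ℕ) : K :=
  q ^ (d + 1) / (a * b) * uu q d i * rr q d i (a * b * c) * rr q d i (a * b / c)

/-- The second split sequence `ϕ_i = a q^(d+1)/b u_i r_i(bc/a) r_i(b/(ac))`. -/
noncomputable def phi (a b c q : K) (d i : ℕ) : K :=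
  a * q ^ (d + 1) / b * uu q d i * rr q d i (b * c / a) * rr q d i (b / (a * c))

/-- The four generators `X, X⁻¹, Y, Z` of `U_q(sl_2)`. -/
inductive Gen
  | X
  | Xinv
  | Y
  | Z

open FreeAlgebra in
/-- The defining relations of the equitable presentation of `U_q(sl_2)`. -/
inductive Rel (q : K) : FreeAlgebra K Gen → FreeAlgebra K Gen → Prop
  | x_xinv : Rel q (ι K Gen.X * ι K Gen.Xinv) 1
  | xinv_x : Rel q (ι K Gen.Xinv * ι K Gen.X) 1
  | xy : Rel q (q • (ι K Gen.X * ι K Gen.Y) - q⁻¹ • (ι K Gen.Y * ι K Gen.X)) ((q - q⁻¹) • 1)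
  | yz : Rel q (q • (ι K Gen.Y * ι K Gen.Z) - q⁻¹ • (ι K Gen.Z * ι K Gen.Y)) ((q - q⁻¹) • 1)
  | zx : Rel q (q • (ι K Gen.Z * ι K Gen.X) - q⁻¹ • (ι K Gen.X * ι K Gen.Z)) ((q - q⁻¹) • 1)

/-- The algebra `U_q(sl_2)` in its equitable presentation: generators `X, X⁻¹, Y, Z` and relations
`X X⁻¹ = X⁻¹ X = 1`, `q X Y - q⁻¹ Y X = q Y Z - q⁻¹ Z Y = q Z X - q⁻¹ X Z = q - q⁻¹`. -/
abbrev Uq (q : K) : Type u := RingQuot (Rel q)

/-- The image of a generator in `U_q(sl_2)`. -/
noncomputable def gen (q : K) (g : Gen) : Uq q :=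
  RingQuot.mkAlgHom K (Rel q) (FreeAlgebra.ι K g)

section Leonard

variable {d : ℕ}

theorem apply_basis (v : Basis (Fin (d + 1)) K V) (A : V →ₗ[K] V) (j : Fin (d + 1)) :
    A (v j) = ∑ i, LinearMap.toMatrix v v A i j • v i := by
  conv_lhs => rw [← v.sum_repr (A (v j))]
  refine Finset.sum_congr rfl fun i _ => ?_
  rw [LinearMap.toMatrix_apply]

/-- The eigenvalues of a linear map which is diagonal in one basis and irreducible tridiagonal in
another one are distinct. -/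
theorem distinct {A : V →ₗ[K] V} (v w : Basis (Fin (d + 1)) K V)
    (hv : (LinearMap.toMatrix v v A).IsDiag) (hw : IsIrredTridiag (LinearMap.toMatrix w w A))
    (i j : Fin (d + 1)) (hij : i ≠ j) :
    LinearMap.toMatrix v v A i i ≠ LinearMap.toMatrix v v A j j := by
  intro h
  set α : Fin (d + 1) → K := fun k => LinearMap.toMatrix v v A k k with hα
  have hAv : ∀ k, A (v k) = α k • v k := by
    intro k
    rw [apply_basis v A k, Finset.sum_eq_single k]
    · intro l _ hl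
      rw [hv hl, zero_smul]
    · simp
  -- the polynomial killing `A`
  set p : Polynomial K := ∏ k ∈ Finset.univ.erase j, (Polynomial.X - Polynomial.C (α k)) with hp
  have hpm : p.Monic := Polynomial.monic_prod_of_monic _ _ fun k _ => Polynomial.monic_X_sub_C _
  have hpd : p.natDegree = d := by
    rw [hp, Polynomial.natDegree_prod_of_monic _ _ fun k _ => Polynomial.monic_X_sub_C _]
    simp
  have hp0 : ∀ x, Polynomial.aeval A p x = 0 := by
    have h1 : Polynomial.aeval A p = 0 := by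
      refine v.ext fun k => ?_
      have h2 : ∀ r : Polynomial K, Polynomial.aeval A r (v k) = (r.eval (α k)) • v k := by
        intro r
        have : Module.End.HasEigenvector A (α k) (v k) :=
          ⟨Module.End.mem_eigenspace_iff.2 (hAv k), v.ne_zero k⟩
        exact Module.End.aeval_apply_of_hasEigenvector this
      rw [h2, LinearMap.zero_apply]
      have h3 : p.eval (α k) = 0 := by
        rw [hp, Polynomial.eval_prod]
        by_cases hk : k = j
        · refine Finset.prod_eq_zero (i := i) (by simp [hij]) ?_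
          rw [Polynomial.eval_sub, Polynomial.eval_X, Polynomial.eval_C, hk]
          exact sub_eq_zero.2 h.symm
        · refine Finset.prod_eq_zero (i := k) (by simp [hk]) ?_
          simp
      rw [h3, zero_smul]
    intro x
    rw [h1, LinearMap.zero_apply]
  -- coordinates of the vectors `A ^ k (w 0)`
  have key : ∀ k : ℕ, ∀ hk : k < d + 1,
      (∀ l : Fin (d + 1), k < (l : ℕ) → w.repr ((A ^ k) (w 0)) l = 0) ∧
      w.repr ((A ^ k) (w 0)) ⟨k, hk⟩ ≠ 0 := by
    intro k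
    induction k with
    | zero =>
      intro hk
      refine ⟨fun l hl => ?_, ?_⟩
      · have : (0 : Fin (d + 1)) ≠ l := by
          rintro rfl
          simp at hl
        simp [this]
      · simp
    | succ k ih =>
      intro hk
      obtain ⟨h1, h2⟩ := ih (by omega)
      have hexp : ∀ l : Fin (d + 1), w.repr ((A ^ (k + 1)) (w 0)) l =
          ∑ m, w.repr ((A ^ k) (w 0)) m * LinearMap.toMatrix w w A l m := by
        intro l
        have h3 : (A ^ (k + 1)) (w 0) = A ((A ^ k) (w 0)) := by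
          rw [pow_succ']
          rfl
        rw [h3]
        conv_lhs => rw [← w.sum_repr ((A ^ k) (w 0))]
        rw [map_sum, map_sum, Finsupp.finsetSum_apply]
        refine Finset.sum_congr rfl fun m _ => ?_
        rw [map_smul, map_smul, Finsupp.smul_apply, LinearMap.toMatrix_apply, smul_eq_mul]
      refine ⟨fun l hl => ?_, ?_⟩
      · rw [hexp]
        refine Finset.sum_eq_zero fun m _ => ?_
        by_cases hm : k < (m : ℕ)
        · rw [h1 m hm, zero_mul]
        · rw [hw.1 l m (Or.inr (by omega)), mul_zero]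
      · rw [hexp, Finset.sum_eq_single (⟨k, by omega⟩ : Fin (d + 1))]
        · exact mul_ne_zero h2 (hw.2 _ _ rfl).2
        · intro m _ hm
          by_cases hm' : k < (m : ℕ)
          · rw [h1 m hm', zero_mul]
          · have : (m : ℕ) ≠ k := fun h => hm (Fin.ext h)
            rw [hw.1 _ m (Or.inr (by simp; omega)), mul_zero]
        · simp
  have h4 := hp0 (w 0)
  have h5 : w.repr (Polynomial.aeval A p (w 0)) ⟨d, by omega⟩ =
      w.repr ((A ^ d) (w 0)) ⟨d, by omega⟩ := by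
    rw [Polynomial.aeval_eq_sum_range, hpd, LinearMap.sum_apply, map_sum,
      Finsupp.finsetSum_apply, Finset.sum_range_succ, Finset.sum_eq_zero, zero_add]
    · have : p.coeff d = 1 := by
        rw [← hpd]
        exact hpm.coeff_natDegree
      rw [this, one_smul]
    · intro m hm
      rw [Finset.mem_range] at hm
      rw [LinearMap.smul_apply, map_smul, Finsupp.smul_apply, (key m (by omega)).1 ⟨d, by omega⟩ hm,
        smul_zero]
  rw [h4, map_zero, Finsupp.zero_apply] at h5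
  exact (key d (by omega)).2 h5.symm

/-- A Leonard pair has no common invariant subspace other than `0` and `V`. -/
theorem irred {A Astar : V →ₗ[K] V} (h : IsLeonardPair d A Astar) (W : Submodule K V)
    (hA : ∀ w ∈ W, A w ∈ W) (hAs : ∀ w ∈ W, Astar w ∈ W) : W = ⊥ ∨ W = ⊤ := by
  obtain ⟨⟨v, hv, hv'⟩, ⟨w, hw, hw'⟩⟩ := h
  have hdist := distinct v w hv hw'
  set α : Fin (d + 1) → K := fun k => LinearMap.toMatrix v v A k k with hα
  have hAv : ∀ k, A (v k) = α k • v k := by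
    intro k
    rw [apply_basis v A k, Finset.sum_eq_single k]
    · intro l _ hl
      rw [hv hl, zero_smul]
    · simp
  have hpol : ∀ (p : Polynomial K), ∀ x ∈ W, Polynomial.aeval A p x ∈ W := by
    intro p x hx
    have hpow : ∀ k : ℕ, (A ^ k) x ∈ W := by
      intro k
      induction k with
      | zero => simpa using hx
      | succ k ih =>
        rw [pow_succ']
        exact hA _ ih
    rw [Polynomial.aeval_eq_sum_range, LinearMap.sum_apply]
    exact W.sum_mem fun k _ => W.smul_mem _ (hpow k)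
  -- projection to an eigenvector
  have hproj : ∀ x ∈ W, ∀ k, v.repr x k ≠ 0 → v k ∈ W := by
    intro x hx k hk
    set p : Polynomial K := ∏ l ∈ Finset.univ.erase k, (Polynomial.X - Polynomial.C (α l)) with hp
    have h1 : Polynomial.aeval A p x = (v.repr x k * p.eval (α k)) • v k := by
      conv_lhs => rw [← v.sum_repr x]
      rw [map_sum, Finset.sum_eq_single k]
      · rw [map_smul]
        have : Module.End.HasEigenvector A (α k) (v k) :=
          ⟨Module.End.mem_eigenspace_iff.2 (hAv k), v.ne_zero k⟩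
        rw [Module.End.aeval_apply_of_hasEigenvector this, smul_smul]
      · intro l _ hl
        have : Module.End.HasEigenvector A (α l) (v l) :=
          ⟨Module.End.mem_eigenspace_iff.2 (hAv l), v.ne_zero l⟩
        rw [map_smul, Module.End.aeval_apply_of_hasEigenvector this]
        have h3 : p.eval (α l) = 0 := by
          rw [hp, Polynomial.eval_prod]
          refine Finset.prod_eq_zero (i := l) (by simp [hl]) ?_
          simp
        rw [h3, zero_smul, smul_zero]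
      · simp
    have h2 : p.eval (α k) ≠ 0 := by
      rw [hp, Polynomial.eval_prod, Finset.prod_ne_zero_iff]
      intro l hl
      have hl' : l ≠ k := Finset.ne_of_mem_erase hl
      simp only [Polynomial.eval_sub, Polynomial.eval_X, Polynomial.eval_C]
      exact sub_ne_zero.2 (hdist k l hl'.symm)
    have h3 := hpol p x hx
    rw [h1] at h3
    exact (W.smul_mem_iff (mul_ne_zero hk h2)).1 h3
  by_cases hW : W = ⊥
  · exact Or.inl hW
  right
  obtain ⟨x, hx, hx0⟩ := W.exists_mem_ne_zero_of_ne_bot hW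
  obtain ⟨k, hk⟩ : ∃ k, v.repr x k ≠ 0 := by
    by_contra hcon
    push Not at hcon
    apply hx0
    rw [← v.sum_repr x]
    exact Finset.sum_eq_zero fun i _ => by rw [hcon i, zero_smul]
  have hkW := hproj x hx k hk
  have hup : ∀ n : ℕ, ∀ hn : (k : ℕ) + n < d + 1, v ⟨k + n, hn⟩ ∈ W := by
    intro n
    induction n with
    | zero => intro hn; exact hkW
    | succ n ih =>
      intro hn
      have h1 := ih (by omega)
      refine hproj _ (hAs _ h1) _ ?_
      have h2 := (hv'.2 ⟨k + n, by omega⟩ ⟨k + (n + 1), hn⟩ (by simp; omega)).2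
      rwa [LinearMap.toMatrix_apply] at h2
  have hdown : ∀ n : ℕ, ∀ hn : n ≤ (k : ℕ), v ⟨k - n, by omega⟩ ∈ W := by
    intro n
    induction n with
    | zero => intro hn; exact hkW
    | succ n ih =>
      intro hn
      have h1 := ih (by omega)
      refine hproj _ (hAs _ h1) _ ?_
      have h2 := (hv'.2 ⟨k - (n + 1), by omega⟩ ⟨k - n, by omega⟩ (by simp; omega)).1
      rwa [LinearMap.toMatrix_apply] at h2
  rw [eq_top_iff, ← v.span_eq, Submodule.span_le]
  rintro _ ⟨l, rfl⟩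
  rcases le_total (k : ℕ) (l : ℕ) with h | h
  · have h1 := hup (l - k) (by omega)
    have h2 : (⟨k + (l - k), by omega⟩ : Fin (d + 1)) = l := Fin.ext (by simp only; omega)
    rwa [h2] at h1
  · have h1 := hdown (k - l) (by omega)
    have h2 : (⟨k - (k - l), by omega⟩ : Fin (d + 1)) = l := Fin.ext (by simp only; omega)
    rwa [h2] at h1

end Leonard

section Construction

variable {d : ℕ}

/-- the basis vectors, extended by `0` -/
noncomputable def ee (v : Basis (Fin (d + 1)) K V) (i : ℕ) : V :=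
  if h : i < d + 1 then v ⟨i, h⟩ else 0

theorem ee_coe (v : Basis (Fin (d + 1)) K V) (i : Fin (d + 1)) : ee v (i : ℕ) = v i :=
  dif_pos i.isLt

theorem ee_of_gt (v : Basis (Fin (d + 1)) K V) {i : ℕ} (h : d < i) : ee v i = 0 := by
  have : ¬ i < d + 1 := by omega
  simp [ee, this]

theorem ext_ee (v : Basis (Fin (d + 1)) K V) {f g : V →ₗ[K] V}
    (h : ∀ i : ℕ, i ≤ d → f (ee v i) = g (ee v i)) : f = g := by
  refine v.ext fun i => ?_
  have := h i (by omega)
  rwa [ee_coe] at this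

/-- The map with `e_i ↦ l_i e_{i-1} + c_i e_i + r_i e_{i+1}`. -/
noncomputable def tri (v : Basis (Fin (d + 1)) K V) (l c r : ℕ → K) : V →ₗ[K] V :=
  v.constr K fun i : Fin (d + 1) => l i • ee v (i - 1) + c i • ee v i + r i • ee v (i + 1)

theorem tri_ee (v : Basis (Fin (d + 1)) K V) (l c r : ℕ → K) (hl : l (d + 1) = 0) (i : ℕ) :
    tri v l c r (ee v i) = l i • ee v (i - 1) + c i • ee v i + r i • ee v (i + 1) := by
  by_cases h : i < d + 1
  · have h1 : ee v i = v ⟨i, h⟩ := by simp [ee, h]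
    conv_lhs => rw [h1]
    rw [tri, Basis.constr_basis]
  · rw [ee_of_gt v (by omega), ee_of_gt v (show d < i + 1 by omega), map_zero, smul_zero, smul_zero,
      add_zero, add_zero]
    by_cases h2 : i = d + 1
    · rw [h2, hl, zero_smul]
    · rw [ee_of_gt v (by omega), smul_zero]

theorem lower_ee {v : Basis (Fin (d + 1)) K V} {A : V →ₗ[K] V} {θ : ℕ → K}
    (h : LinearMap.toMatrix v v A = lowerBidiag d θ) (i : ℕ) (hi : i ≤ d) :
    A (ee v i) = θ i • ee v i + ee v (i + 1) := by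
  have h1 : ee v i = v ⟨i, by omega⟩ := by simp [ee, show i < d + 1 by omega]
  rw [h1, apply_basis v A, h]
  by_cases h2 : i < d
  · have h3 : ee v (i + 1) = v ⟨i + 1, by omega⟩ := by simp [ee, show i < d by omega]
    rw [h3, ← Finset.sum_subset (Finset.subset_univ
      {(⟨i, by omega⟩ : Fin (d + 1)), (⟨i + 1, by omega⟩ : Fin (d + 1))})]
    · rw [Finset.sum_pair (by simp)]
      simp [lowerBidiag]
    · intro j _ hj
      simp only [Finset.mem_insert, Finset.mem_singleton, not_or] at hj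
      have h4 : (j : ℕ) ≠ i + 1 := fun h => hj.2 (Fin.ext h)
      simp [lowerBidiag, hj.1, h4]
  · rw [ee_of_gt v (show d < i + 1 by omega), add_zero, Finset.sum_eq_single ⟨i, by omega⟩]
    · simp [lowerBidiag]
    · intro j _ hj
      have h4 : (j : ℕ) ≠ i + 1 := by omega
      simp [lowerBidiag, hj, h4]
    · simp

theorem upper_ee {v : Basis (Fin (d + 1)) K V} {A : V →ₗ[K] V} {θ φ : ℕ → K}
    (h : LinearMap.toMatrix v v A = upperBidiag d θ φ) (hφ : φ 0 = 0) (i : ℕ) (hi : i ≤ d) :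
    A (ee v i) = θ i • ee v i + φ i • ee v (i - 1) := by
  have h1 : ee v i = v ⟨i, by omega⟩ := by simp [ee, show i < d + 1 by omega]
  rw [h1, apply_basis v A, h]
  by_cases h2 : 0 < i
  · have h3 : ee v (i - 1) = v ⟨i - 1, by omega⟩ := by simp [ee, show i - 1 < d + 1 by omega]
    rw [h3, ← Finset.sum_subset (Finset.subset_univ
      {(⟨i, by omega⟩ : Fin (d + 1)), (⟨i - 1, by omega⟩ : Fin (d + 1))})]
    · rw [Finset.sum_pair (by
        intro h
        have := congrArg Fin.val h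
        simp only at this
        omega)]
      have h5 : ¬ ((⟨i - 1, by omega⟩ : Fin (d + 1)) = ⟨i, by omega⟩) := by
        intro h
        have := congrArg Fin.val h
        simp only at this
        omega
      have h6 : i - 1 + 1 = i := by omega
      simp [upperBidiag, h5, h6]
    · intro j _ hj
      simp only [Finset.mem_insert, Finset.mem_singleton, not_or] at hj
      have h4 : (j : ℕ) + 1 ≠ i := fun h => hj.2 (Fin.ext (by simp only; omega))
      simp [upperBidiag, hj.1, h4]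
  · have h0 : i = 0 := by omega
    subst h0
    rw [hφ, zero_smul, add_zero, Finset.sum_eq_single ⟨0, by omega⟩]
    · simp [upperBidiag]
    · intro j _ hj
      have h4 : ¬ (j : ℕ) + 1 = 0 := by omega
      have h5 : j ≠ 0 := hj
      simp [upperBidiag, h5]
    · simp

variable (v : Basis (Fin (d + 1)) K V) (q : K) (x y z : ℕ → K)

/-- the diagonal map -/
noncomputable def XX : V →ₗ[K] V := tri v 0 x 0

/-- the inverse of the diagonal map -/
noncomputable def XI : V →ₗ[K] V := tri v 0 (fun i => (x i)⁻¹) 0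

/-- the lower bidiagonal map -/
noncomputable def YY : V →ₗ[K] V := tri v 0 (fun i => (x i)⁻¹) (fun i => y (i + 1))

/-- the upper bidiagonal map -/
noncomputable def ZZ : V →ₗ[K] V := tri v z (fun i => (x i)⁻¹) 0

theorem XX_ee (i : ℕ) : XX v x (ee v i) = x i • ee v i := by
  rw [XX, tri_ee v _ _ _ rfl]
  simp

theorem XI_ee (i : ℕ) : XI v x (ee v i) = (x i)⁻¹ • ee v i := by
  rw [XI, tri_ee v _ _ _ rfl]
  simp

theorem YY_ee (i : ℕ) : YY v x y (ee v i) = (x i)⁻¹ • ee v i + y (i + 1) • ee v (i + 1) := by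
  rw [YY, tri_ee v _ _ _ rfl]
  simp

theorem ZZ_ee (hzd : z (d + 1) = 0) (i : ℕ) :
    ZZ v x z (ee v i) = z i • ee v (i - 1) + (x i)⁻¹ • ee v i := by
  rw [ZZ, tri_ee v _ _ _ hzd]
  simp

theorem mul_XI (hx : ∀ i, x i ≠ 0) : XX v x * XI v x = 1 := by
  refine ext_ee v fun i _ => ?_
  rw [Module.End.mul_apply, XI_ee, map_smul, XX_ee, smul_smul, inv_mul_cancel₀ (hx i), one_smul,
    Module.End.one_apply]

theorem XI_mul (hx : ∀ i, x i ≠ 0) : XI v x * XX v x = 1 := by
  refine ext_ee v fun i _ => ?_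
  rw [Module.End.mul_apply, XX_ee, map_smul, XI_ee, smul_smul, mul_inv_cancel₀ (hx i), one_smul,
    Module.End.one_apply]

theorem rel_xy (hq : q ≠ 0) (hx : ∀ i, x i ≠ 0) (hx' : ∀ i, x i = q ^ 2 * x (i + 1)) :
    q • (XX v x * YY v x y) - q⁻¹ • (YY v x y * XX v x) =
      (q - q⁻¹) • (1 : Module.End K V) := by
  refine ext_ee v fun i _ => ?_
  simp only [LinearMap.sub_apply, LinearMap.smul_apply, Module.End.mul_apply,
    Module.End.one_apply, XX_ee, YY_ee, map_add, map_smul]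
  have h1 := hx i
  have e1 : q * ((x i)⁻¹ * x i) - q⁻¹ * (x i * (x i)⁻¹) = q - q⁻¹ := by
    field_simp
  have e2 : q * (y (i + 1) * x (i + 1)) - q⁻¹ * (x i * y (i + 1)) = 0 := by
    rw [hx' i]
    field_simp
    ring
  linear_combination (norm := module) e1 • ee v i + e2 • ee v (i + 1)

theorem rel_zx (hq : q ≠ 0) (hx : ∀ i, x i ≠ 0) (hx' : ∀ i, x i = q ^ 2 * x (i + 1))
    (hz0 : z 0 = 0) (hzd : z (d + 1) = 0) :
    q • (ZZ v x z * XX v x) - q⁻¹ • (XX v x * ZZ v x z) =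
      (q - q⁻¹) • (1 : Module.End K V) := by
  refine ext_ee v fun i _ => ?_
  simp only [LinearMap.sub_apply, LinearMap.smul_apply, Module.End.mul_apply,
    Module.End.one_apply, XX_ee, ZZ_ee v x z hzd, map_add, map_smul]
  have h1 := hx i
  have e1 : q * (x i * (x i)⁻¹) - q⁻¹ * ((x i)⁻¹ * x i) = q - q⁻¹ := by
    field_simp
  have e2 : q * (x i * z i) - q⁻¹ * (z i * x (i - 1)) = 0 := by
    cases i with
    | zero => rw [hz0]; ring
    | succ j =>
      rw [Nat.add_sub_cancel, hx' j]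
      field_simp
      ring
  linear_combination (norm := module) e1 • ee v i + e2 • ee v (i - 1)

theorem rel_yz (hq : q ≠ 0) (hx : ∀ i, x i ≠ 0) (hx' : ∀ i, x i = q ^ 2 * x (i + 1))
    (hz0 : z 0 = 0) (hzd : z (d + 1) = 0)
    (hw : ∀ i ≤ d, q * (y i * z i) - q⁻¹ * (y (i + 1) * z (i + 1)) =
      (q - q⁻¹) * (1 - (x i)⁻¹ ^ 2)) :
    q • (YY v x y * ZZ v x z) - q⁻¹ • (ZZ v x z * YY v x y) =
      (q - q⁻¹) • (1 : Module.End K V) := by
  refine ext_ee v fun i hi => ?_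
  simp only [LinearMap.sub_apply, LinearMap.smul_apply, Module.End.mul_apply,
    Module.End.one_apply, YY_ee, ZZ_ee v x z hzd, map_add, map_smul]
  have h1 := hx i
  have h2 := hx (i + 1)
  have e3 : q * ((x i)⁻¹ * y (i + 1)) - q⁻¹ * (y (i + 1) * (x (i + 1))⁻¹) = 0 := by
    rw [hx' i]
    field_simp
    ring
  have h3 := hw i hi
  cases i with
  | zero =>
    rw [hz0] at h3 ⊢
    simp only [zero_add, zero_smul, Nat.sub_self] at *
    linear_combination (norm := module) h3 • ee v 0 + e3 • ee v 1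
  | succ j =>
    have h4 := hx j
    have e2 : q * (z (j + 1) * (x j)⁻¹) - q⁻¹ * ((x (j + 1))⁻¹ * z (j + 1)) = 0 := by
      rw [hx' j]
      field_simp
      ring
    simp only [Nat.add_sub_cancel]
    linear_combination (norm := module) h3 • ee v (j + 1) + e3 • ee v (j + 1 + 1) + e2 • ee v j

/-- The formula for `A`. -/
theorem form_A (hq : q ≠ 0) (hh : q - q⁻¹ ≠ 0)
    (hx' : ∀ i, x i = q ^ 2 * x (i + 1)) (a b c : K) (A : V →ₗ[K] V)
    (hA : ∀ i ≤ d, A (ee v i) = (a * x i + a⁻¹ * (x i)⁻¹) • ee v i + ee v (i + 1))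
    (hy : ∀ i < d, y (i + 1) * (a⁻¹ - c / b * (x (i + 1) * q)) = 1) :
    A = a • XX v x + a⁻¹ • YY v x y +
      (c / b) • ((q - q⁻¹)⁻¹ • (XX v x * YY v x y - YY v x y * XX v x)) := by
  refine ext_ee v fun i hi => ?_
  simp only [LinearMap.add_apply, LinearMap.sub_apply, LinearMap.smul_apply,
    Module.End.mul_apply, XX_ee, YY_ee, map_add, map_smul]
  rw [hA i hi]
  rcases Nat.lt_or_ge i d with h | h
  · have e2 : a⁻¹ * y (i + 1) + c / b * ((q - q⁻¹)⁻¹ * (y (i + 1) * x (i + 1) -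
        x i * y (i + 1))) = 1 := by
      rw [← hy i h, hx' i]
      have : (q - q⁻¹)⁻¹ * (1 - q ^ 2) = - q := by
        rw [inv_mul_eq_iff_eq_mul₀ hh]
        field_simp
        ring
      linear_combination (c / b * y (i + 1) * x (i + 1)) * this
    linear_combination (norm := module) (-e2) • ee v (i + 1)
  · rw [ee_of_gt v (show d < i + 1 by omega)]
    module

/-- The formula for `A*`. -/
theorem form_Astar (hq : q ≠ 0) (hh : q - q⁻¹ ≠ 0) (hx : ∀ i, x i ≠ 0)
    (hx' : ∀ i, x i = q ^ 2 * x (i + 1)) (hz0 : z 0 = 0) (hzd : z (d + 1) = 0)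
    (a b c : K) (φ : ℕ → K) (hφ0 : φ 0 = 0) (A : V →ₗ[K] V)
    (hA : ∀ i ≤ d, A (ee v i) = (b * (x i)⁻¹ + b⁻¹ * x i) • ee v i + φ i • ee v (i - 1))
    (hz : ∀ i < d, z (i + 1) * (b - a / c * (x (i + 1) * q)) = φ (i + 1)) :
    A = b • ZZ v x z + b⁻¹ • XX v x +
      (a / c) • ((q - q⁻¹)⁻¹ • (ZZ v x z * XX v x - XX v x * ZZ v x z)) := by
  refine ext_ee v fun i hi => ?_
  simp only [LinearMap.add_apply, LinearMap.sub_apply, LinearMap.smul_apply,
    Module.End.mul_apply, XX_ee, ZZ_ee v x z hzd, map_add, map_smul]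
  rw [hA i hi]
  have h1 := hx i
  cases i with
  | zero =>
    simp only [hz0, hφ0]
    module
  | succ j =>
    have e2 : b * z (j + 1) + a / c * ((q - q⁻¹)⁻¹ * (x (j + 1) * z (j + 1) -
        z (j + 1) * x j)) = φ (j + 1) := by
      rw [← hz j (by omega), hx' j]
      have : (q - q⁻¹)⁻¹ * (1 - q ^ 2) = - q := by
        rw [inv_mul_eq_iff_eq_mul₀ hh]
        field_simp
        ring
      linear_combination (a / c * z (j + 1) * x (j + 1)) * this
    simp only [Nat.add_sub_cancel]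
    linear_combination (norm := module) (-e2) • ee v j

omit [AddCommGroup V] [Module K V] in
theorem coeff_mid {a b c q x T : K} (ha : a ≠ 0) (hb : b ≠ 0) (hc : c ≠ 0) (hq : q ≠ 0)
    (hx : x ≠ 0) (hT : T ≠ 0) (hh : q - q⁻¹ ≠ 0) {w0 w1 p0 p1 : K}
    (hw0 : w0 = (1 - T * q⁻¹ * x⁻¹) * (1 - T⁻¹ * q⁻¹ * x⁻¹))
    (hw1 : w1 = (1 - T * q * x⁻¹) * (1 - T⁻¹ * q * x⁻¹))
    (hp0 : p0 = w0 * (a⁻¹ - c / b * (x * q)) * (b - a / c * (x * q)))
    (hp1 : p1 = w1 * (a⁻¹ - c / b * (x * q⁻¹)) * (b - a / c * (x * q⁻¹))) :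
    (q ^ 2 - q⁻¹ ^ 2) * (c * x⁻¹ + c⁻¹ * x⁻¹ + b / a * ((q - q⁻¹)⁻¹ * (w0 - w1))) =
      q⁻¹ * ((b * x⁻¹ + b⁻¹ * x) * (a * x + a⁻¹ * x⁻¹) + p0) -
      q * ((a * x + a⁻¹ * x⁻¹) * (b * x⁻¹ + b⁻¹ * x) + p1) +
      (q - q⁻¹) * ((a + a⁻¹) * (b + b⁻¹) + (c + c⁻¹) * (T + T⁻¹)) := by
  have h1 : (q ^ 2 - q⁻¹ ^ 2) * (c * x⁻¹ + c⁻¹ * x⁻¹ + b / a * ((q - q⁻¹)⁻¹ * (w0 - w1))) =
      (q ^ 2 - q⁻¹ ^ 2) * (c * x⁻¹ + c⁻¹ * x⁻¹) + (q + q⁻¹) * (b / a * (w0 - w1)) := by
    have : (q ^ 2 - q⁻¹ ^ 2) * (q - q⁻¹)⁻¹ = q + q⁻¹ := by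
      rw [mul_inv_eq_iff_eq_mul₀ hh]
      ring
    linear_combination (b / a * (w0 - w1)) * this
  rw [h1, hp0, hp1, hw0, hw1]
  field_simp
  ring

/-- The formula for `A^ε`. -/
theorem form_Aeps (hq : q ≠ 0) (hh : q - q⁻¹ ≠ 0) (hs : q ^ 2 - q⁻¹ ^ 2 ≠ 0)
    (hx : ∀ i, x i ≠ 0) (hx' : ∀ i, x i = q ^ 2 * x (i + 1)) (hz0 : z 0 = 0)
    (hzd : z (d + 1) = 0) (a b c T : K) (ha : a ≠ 0) (hb : b ≠ 0) (hc : c ≠ 0) (hT : T ≠ 0)
    (φ : ℕ → K) (hφ0 : φ 0 = 0) (A As Aeps : V →ₗ[K] V)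
    (hA : ∀ i, A (ee v i) = (a * x i + a⁻¹ * (x i)⁻¹) • ee v i + ee v (i + 1))
    (hAs : ∀ i, As (ee v i) = (b * (x i)⁻¹ + b⁻¹ * x i) • ee v i + φ i • ee v (i - 1))
    (hy : ∀ i < d, y (i + 1) * (a⁻¹ - c / b * (x (i + 1) * q)) = 1)
    (hz : ∀ i < d, z (i + 1) * (b - a / c * (x (i + 1) * q)) = φ (i + 1))
    (w : ℕ → K) (hw : ∀ i ≤ d + 1, y i * z i = w i)
    (hw' : ∀ i, w i = (1 - T * q⁻¹ * (x i)⁻¹) * (1 - T⁻¹ * q⁻¹ * (x i)⁻¹))
    (hφ : ∀ i, φ i = w i * (a⁻¹ - c / b * (x i * q)) * (b - a / c * (x i * q)))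
    (hE : (q ^ 2 - q⁻¹ ^ 2) • Aeps = q⁻¹ • (A * As) - q • (As * A) +
      ((q - q⁻¹) * ((a + a⁻¹) * (b + b⁻¹) + (c + c⁻¹) * (T + T⁻¹))) • (1 : Module.End K V)) :
    Aeps = c • YY v x y + c⁻¹ • ZZ v x z +
      (b / a) • ((q - q⁻¹)⁻¹ • (YY v x y * ZZ v x z - ZZ v x z * YY v x y)) := by
  have key : (q ^ 2 - q⁻¹ ^ 2) • (c • YY v x y + c⁻¹ • ZZ v x z +
      (b / a) • ((q - q⁻¹)⁻¹ • (YY v x y * ZZ v x z - ZZ v x z * YY v x y))) =
      (q ^ 2 - q⁻¹ ^ 2) • Aeps := by
    rw [hE]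
    refine ext_ee v fun i hi => ?_
    simp only [LinearMap.add_apply, LinearMap.sub_apply, LinearMap.smul_apply,
      Module.End.mul_apply, Module.End.one_apply, YY_ee, ZZ_ee v x z hzd, map_add, map_smul,
      hA, hAs]
    have h1 := hx i
    have h2 := hx (i + 1)
    have hxi : x (i + 1) = x i * q⁻¹ ^ 2 := by
      rw [hx' i]
      field_simp
    have em : (q ^ 2 - q⁻¹ ^ 2) * (c * (x i)⁻¹ + c⁻¹ * (x i)⁻¹ +
        b / a * ((q - q⁻¹)⁻¹ * (y i * z i - y (i + 1) * z (i + 1)))) =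
        q⁻¹ * ((b * (x i)⁻¹ + b⁻¹ * x i) * (a * x i + a⁻¹ * (x i)⁻¹) + φ i) -
        q * ((a * x i + a⁻¹ * (x i)⁻¹) * (b * (x i)⁻¹ + b⁻¹ * x i) + φ (i + 1)) +
        (q - q⁻¹) * ((a + a⁻¹) * (b + b⁻¹) + (c + c⁻¹) * (T + T⁻¹)) := by
      refine coeff_mid ha hb hc hq h1 hT hh ?_ ?_ ?_ ?_
      · rw [hw i (by omega), hw' i]
      · rw [hw (i + 1) (by omega), hw' (i + 1), hxi]
        have : q⁻¹ * (x i * q⁻¹ ^ 2)⁻¹ = q * (x i)⁻¹ := by
          field_simp
        rw [mul_assoc T, mul_assoc T⁻¹, this]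
        ring
      · rw [hφ i, hw i (by omega)]
      · rw [hφ (i + 1), hw (i + 1) (by omega), hxi]
        have : x i * q⁻¹ ^ 2 * q = x i * q⁻¹ := by
          field_simp
        rw [this]
    have eu : i < d → (q ^ 2 - q⁻¹ ^ 2) * (c * y (i + 1) +
        b / a * ((q - q⁻¹)⁻¹ * ((x i)⁻¹ * y (i + 1) - y (i + 1) * (x (i + 1))⁻¹))) =
        q⁻¹ * (b * (x i)⁻¹ + b⁻¹ * x i) -
        q * (b * (x (i + 1))⁻¹ + b⁻¹ * x (i + 1)) := by
      intro h
      have e1 := hy i h
      have e2 : (q - q⁻¹)⁻¹ * ((x i)⁻¹ - (x (i + 1))⁻¹) = - (q⁻¹ * (x (i + 1))⁻¹) := by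
        rw [inv_mul_eq_iff_eq_mul₀ hh, hx' i]
        field_simp
        ring
      have e3 : (q ^ 2 - q⁻¹ ^ 2) * (c * y (i + 1) +
          b / a * ((q - q⁻¹)⁻¹ * ((x i)⁻¹ * y (i + 1) - y (i + 1) * (x (i + 1))⁻¹))) =
          (q ^ 2 - q⁻¹ ^ 2) * (y (i + 1) * (c - b / a * (q⁻¹ * (x (i + 1))⁻¹))) := by
        linear_combination ((q ^ 2 - q⁻¹ ^ 2) * (b / a) * y (i + 1)) * e2
      have e4 : c - b / a * (q⁻¹ * (x (i + 1))⁻¹) =
          - (b * q⁻¹ * (x (i + 1))⁻¹) * (a⁻¹ - c / b * (x (i + 1) * q)) := by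
        field_simp
        ring
      rw [e3, e4]
      have e5 : (q ^ 2 - q⁻¹ ^ 2) * (y (i + 1) * (- (b * q⁻¹ * (x (i + 1))⁻¹) *
          (a⁻¹ - c / b * (x (i + 1) * q)))) =
          (q ^ 2 - q⁻¹ ^ 2) * (- (b * q⁻¹ * (x (i + 1))⁻¹)) := by
        linear_combination ((q ^ 2 - q⁻¹ ^ 2) * (- (b * q⁻¹ * (x (i + 1))⁻¹))) * e1
      rw [e5, hx' i]
      field_simp
      ring
    cases i with
    | zero =>
      simp only [hz0, hφ0, mul_zero, zero_smul, zero_add, Nat.sub_self] at *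
      rcases Nat.lt_or_ge 0 d with h | h
      · linear_combination (norm := module) em • ee v 0 + (eu h) • ee v 1
      · rw [ee_of_gt v (show d < 0 + 1 by omega)]
        linear_combination (norm := module) em • ee v 0
    | succ j =>
      have h4 := hx j
      have el : (q ^ 2 - q⁻¹ ^ 2) * (c⁻¹ * z (j + 1) +
          b / a * ((q - q⁻¹)⁻¹ * (z (j + 1) * (x j)⁻¹ - (x (j + 1))⁻¹ * z (j + 1)))) =
          q⁻¹ * (φ (j + 1) * (a * x j + a⁻¹ * (x j)⁻¹)) -
          q * ((a * x (j + 1) + a⁻¹ * (x (j + 1))⁻¹) * φ (j + 1)) := by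
        rw [← hz j (by omega)]
        have e2 : (q - q⁻¹)⁻¹ * ((x j)⁻¹ - (x (j + 1))⁻¹) = - (q⁻¹ * (x (j + 1))⁻¹) := by
          rw [inv_mul_eq_iff_eq_mul₀ hh, hx' j]
          field_simp
          ring
        have e3 : (q ^ 2 - q⁻¹ ^ 2) * (c⁻¹ * z (j + 1) +
            b / a * ((q - q⁻¹)⁻¹ * (z (j + 1) * (x j)⁻¹ - (x (j + 1))⁻¹ * z (j + 1)))) =
            (q ^ 2 - q⁻¹ ^ 2) * (z (j + 1) * (c⁻¹ - b / a * (q⁻¹ * (x (j + 1))⁻¹))) := by
          linear_combination ((q ^ 2 - q⁻¹ ^ 2) * (b / a) * z (j + 1)) * e2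
        rw [e3, hx' j]
        field_simp
        ring
      simp only [Nat.add_sub_cancel]
      rcases Nat.lt_or_ge (j + 1) d with h | h
      · linear_combination (norm := module) em • ee v (j + 1) + (eu h) • ee v (j + 1 + 1) +
          el • ee v j
      · rw [ee_of_gt v (show d < j + 1 + 1 by omega)]
        linear_combination (norm := module) em • ee v (j + 1) + el • ee v j
  exact (smul_right_injective _ hs key).symm

end Construction

section Parameters

variable {d : ℕ} {a b c q : K}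

/-- `x_i = q^(d-2i)` -/
noncomputable def xs (q : K) (d i : ℕ) : K := q ^ ((d : ℤ) - 2 * i)

theorem xs_ne (hq : q ≠ 0) (i : ℕ) : xs q d i ≠ 0 := zpow_ne_zero _ hq

theorem xs_eq (hq : q ≠ 0) (i : ℕ) : xs q d i = q ^ d * (q ^ i)⁻¹ ^ 2 := by
  rw [xs, zpow_sub₀ hq, zpow_natCast, two_mul, zpow_add₀ hq, zpow_natCast, div_eq_mul_inv]
  ring

theorem xs_succ (hq : q ≠ 0) (i : ℕ) : xs q d i = q ^ 2 * xs q d (i + 1) := by
  rw [xs_eq hq, xs_eq hq, pow_succ q i]
  field_simp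

theorem xs_inv (i : ℕ) : (xs q d i)⁻¹ = q ^ (2 * (i : ℤ) - d) := by
  rw [xs, ← zpow_neg]
  congr 1
  ring

/-- `w_i = (1 - q^(2i)) (1 - q^(2i-2d-2))` -/
noncomputable def ws (q : K) (d i : ℕ) : K :=
  (1 - q ^ (d + 1) * q⁻¹ * (xs q d i)⁻¹) * (1 - (q ^ (d + 1))⁻¹ * q⁻¹ * (xs q d i)⁻¹)

theorem phi_eq (ha : a ≠ 0) (hb : b ≠ 0) (hc : c ≠ 0) (hq : q ≠ 0) (i : ℕ) :
    phi a b c q d i = ws q d i * (a⁻¹ - c / b * (xs q d i * q)) *
      (b - a / c * (xs q d i * q)) := by
  have h1 : q ^ (-(i : ℤ)) = (q ^ i)⁻¹ := by rw [zpow_neg, zpow_natCast]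
  have h2 : q ^ ((d : ℤ) - i + 1) = q ^ d * (q ^ i)⁻¹ * q := by
    rw [zpow_add₀ hq, zpow_sub₀ hq, zpow_natCast, zpow_natCast, zpow_one, div_eq_mul_inv]
  have h3 : q ^ ((i : ℤ) - d - 1) = q ^ i * (q ^ d)⁻¹ * q⁻¹ := by
    rw [zpow_sub₀ hq, zpow_sub₀ hq, zpow_natCast, zpow_natCast, zpow_one, div_eq_mul_inv,
      div_eq_mul_inv]
  rw [phi, uu, rr, rr, ws, xs_eq hq, h1, h2, h3, zpow_natCast, pow_succ q d]
  have hP : q ^ i ≠ 0 := pow_ne_zero _ hq
  have hD : q ^ d ≠ 0 := pow_ne_zero _ hq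
  generalize q ^ i = P at *
  generalize q ^ d = D at *
  field_simp
  ring

theorem phi_zero : phi a b c q d 0 = 0 := by
  simp [phi, uu]

theorem phi_last : phi a b c q d (d + 1) = 0 := by
  have h1 : (d : ℤ) - ((d + 1 : ℕ) : ℤ) + 1 = 0 := by
    push_cast
    ring
  have h2 : ((d + 1 : ℕ) : ℤ) - d - 1 = 0 := by
    push_cast
    ring
  simp only [phi, uu, h1, h2]
  ring

theorem ws_zero (hq : q ≠ 0) : ws q d 0 = 0 := by
  rw [ws, xs_eq hq, pow_zero, pow_succ q d]
  have hD : q ^ d ≠ 0 := pow_ne_zero _ hq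
  field_simp
  ring

theorem ws_last (hq : q ≠ 0) : ws q d (d + 1) = 0 := by
  rw [ws, xs_eq hq, pow_succ q d]
  have hD : q ^ d ≠ 0 := pow_ne_zero _ hq
  field_simp
  ring

theorem ws_rec (hq : q ≠ 0) (i : ℕ) : q * ws q d i - q⁻¹ * ws q d (i + 1) =
    (q - q⁻¹) * (1 - (xs q d i)⁻¹ ^ 2) := by
  have h : (xs q d (i + 1))⁻¹ = q ^ 2 * (xs q d i)⁻¹ := by
    rw [xs_succ hq i]
    have := xs_ne (d := d) hq (i + 1)
    field_simp
  rw [ws, ws, h]
  have hD : q ^ (d + 1) ≠ 0 := pow_ne_zero _ hq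
  generalize q ^ (d + 1) = D at *
  generalize (xs q d i)⁻¹ = X
  field_simp
  ring

end Parameters

/-- In the basis (ii) the entries `ϕ_i` with `1 ≤ i ≤ d` are nonzero. -/
theorem entry_ne_zero {d : ℕ} {A Astar : V →ₗ[K] V} (hL : IsLeonardPair d A Astar)
    (v : Basis (Fin (d + 1)) K V) (α β φ : ℕ → K)
    (hA : ∀ i, A (ee v i) = α i • ee v i + ee v (i + 1))
    (hAs : ∀ i, Astar (ee v i) = β i • ee v i + φ i • ee v (i - 1)) (i : ℕ) (h1 : 1 ≤ i)
    (h2 : i ≤ d) : φ i ≠ 0 := by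
  intro h0
  set W : Submodule K V := Submodule.span K (Set.range fun k : ℕ => ee v (i + k)) with hW
  have hmem : ∀ k, i ≤ k → ee v k ∈ W := by
    intro k hk
    refine Submodule.subset_span ⟨k - i, ?_⟩
    simp only
    rw [Nat.add_sub_cancel' hk]
  have hinv : ∀ f : V →ₗ[K] V, (∀ k, i ≤ k → f (ee v k) ∈ W) → ∀ w ∈ W, f w ∈ W := by
    intro f hf w hw
    have : W ≤ W.comap f := by
      rw [hW, Submodule.span_le]
      rintro _ ⟨k, rfl⟩
      exact hf _ (by omega)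
    exact this hw
  have hi : i < d + 1 := by omega
  have hWA : ∀ k, i ≤ k → A (ee v k) ∈ W := by
    intro k hk
    rw [hA]
    exact W.add_mem (W.smul_mem _ (hmem k hk)) (hmem _ (by omega))
  have hWAs : ∀ k, i ≤ k → Astar (ee v k) ∈ W := by
    intro k hk
    rw [hAs]
    refine W.add_mem (W.smul_mem _ (hmem k hk)) ?_
    rcases Nat.eq_or_lt_of_le hk with h | h
    · rw [← h, h0, zero_smul]
      exact W.zero_mem
    · exact W.smul_mem _ (hmem _ (by omega))
  rcases irred hL W (hinv A hWA) (hinv Astar hWAs) with h | h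
  · have h3 := hmem i le_rfl
    rw [h, Submodule.mem_bot] at h3
    have h4 : ee v i = v ⟨i, hi⟩ := by simp [ee, hi]
    rw [h4] at h3
    exact v.ne_zero _ h3
  · have h3 : ∀ w ∈ W, v.coord 0 w = 0 := by
      have : W ≤ LinearMap.ker (v.coord 0) := by
        rw [hW, Submodule.span_le]
        rintro _ ⟨k, rfl⟩
        simp only [SetLike.mem_coe, LinearMap.mem_ker]
        by_cases hk : i + k < d + 1
        · have h4 : ee v (i + k) = v ⟨i + k, hk⟩ := by simp [ee, hk]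
          rw [h4, Basis.coord_apply, Basis.repr_self, Finsupp.single_apply, if_neg]
          intro h5
          have := congrArg Fin.val h5
          simp only [Fin.val_zero] at this
          omega
        · rw [ee_of_gt v (by omega), map_zero]
      intro w hw
      exact this hw
    have h4 := h3 (v 0) (h ▸ Submodule.mem_top)
    simp at h4

/-- **The equitable `U_q(sl_2)`-action on a Leonard pair of `q`-Racah type.** Let `a, b, c, q` be
nonzero with `q^4 ≠ 1` and let `A, A*` be a Leonard pair on `V` with parameter array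
`θ_i = λ_i(a)`, `θ*_i = λ_i(b)`, `φ_i`, `ϕ_i` of `q`-Racah type. Let `A^ε` be the map with
`(q² - q⁻²) A^ε = q⁻¹ A A* - q A* A + (q - q⁻¹) ((a + a⁻¹)(b + b⁻¹) + (c + c⁻¹) t) I`,
`t = q^(d+1) + q^(-d-1)`. Then `V` is an irreducible `U_q(sl_2)`-module on which
`A = a X + a⁻¹ Y + (c/b) [X, Y]/(q - q⁻¹)`, `A* = b Z + b⁻¹ X + (a/c) [Z, X]/(q - q⁻¹)` and
`A^ε = c Y + c⁻¹ Z + (b/a) [Y, Z]/(q - q⁻¹)`. -/
theorem result {K : Type u} [Field K] {V : Type v} [AddCommGroup V] [Module K V] (d : ℕ)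
    (a b c q : K) (ha : a ≠ 0) (hb : b ≠ 0) (hc : c ≠ 0) (hq : q ≠ 0) (hq4 : q ^ 4 ≠ 1)
    (A Astar Aeps : V →ₗ[K] V) (hL : IsLeonardPair d A Astar)
    (hP : HasParameterArray d A Astar (lam q d a) (lam q d b) (varphi a b c q d) (phi a b c q d))
    (hE : (q ^ 2 - q⁻¹ ^ 2) • Aeps = q⁻¹ • (A ∘ₗ Astar) - q • (Astar ∘ₗ A) +
      ((q - q⁻¹) * ((a + a⁻¹) * (b + b⁻¹) +
        (c + c⁻¹) * (q ^ (d + 1) + q⁻¹ ^ (d + 1)))) • LinearMap.id) :
    Nontrivial V ∧ ∃ ρ : Uq q →ₐ[K] Module.End K V,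
      (∀ W : Submodule K V, (∀ u : Uq q, ∀ w ∈ W, ρ u w ∈ W) → W = ⊥ ∨ W = ⊤) ∧
      A = a • ρ (gen q Gen.X) + a⁻¹ • ρ (gen q Gen.Y) + (c / b) • ((q - q⁻¹)⁻¹ •
        (ρ (gen q Gen.X) * ρ (gen q Gen.Y) - ρ (gen q Gen.Y) * ρ (gen q Gen.X))) ∧
      Astar = b • ρ (gen q Gen.Z) + b⁻¹ • ρ (gen q Gen.X) + (a / c) • ((q - q⁻¹)⁻¹ •
        (ρ (gen q Gen.Z) * ρ (gen q Gen.X) - ρ (gen q Gen.X) * ρ (gen q Gen.Z))) ∧
      Aeps = c • ρ (gen q Gen.Y) + c⁻¹ • ρ (gen q Gen.Z) + (b / a) • ((q - q⁻¹)⁻¹ •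
        (ρ (gen q Gen.Y) * ρ (gen q Gen.Z) - ρ (gen q Gen.Z) * ρ (gen q Gen.Y))) := by
  obtain ⟨-, v, hvA, hvAs⟩ := hP
  have hq2 : q ^ 2 ≠ 1 := by
    intro h
    apply hq4
    have : q ^ 4 = (q ^ 2) ^ 2 := by ring
    rw [this, h, one_pow]
  have hh : q - q⁻¹ ≠ 0 := by
    intro h
    apply hq2
    have h1 : q * (q - q⁻¹) = 0 := by rw [h, mul_zero]
    rw [mul_sub, mul_inv_cancel₀ hq, sub_eq_zero] at h1
    rw [pow_two, h1]
  have hs : q ^ 2 - q⁻¹ ^ 2 ≠ 0 := by
    intro h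
    apply hq4
    have h1 : q ^ 2 * q⁻¹ ^ 2 = 1 := by rw [← mul_pow, mul_inv_cancel₀ hq, one_pow]
    linear_combination q ^ 2 * h + h1
  have hx := fun i => xs_ne (d := d) hq i
  have hx' := fun i => xs_succ (d := d) hq i
  have hA : ∀ i, A (ee v i) = (a * xs q d i + a⁻¹ * (xs q d i)⁻¹) • ee v i + ee v (i + 1) := by
    intro i
    rcases Nat.lt_or_ge d i with h | h
    · rw [ee_of_gt v h, ee_of_gt v (show d < i + 1 by omega), map_zero, smul_zero, add_zero]
    · rw [lower_ee hvA i h]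
      congr 2
      rw [lam, xs_inv, xs, Nat.cast_sub h]
      congr 3 <;> ring
  have hAs : ∀ i, Astar (ee v i) = (b * (xs q d i)⁻¹ + b⁻¹ * xs q d i) • ee v i +
      phi a b c q d i • ee v (i - 1) := by
    intro i
    rcases Nat.lt_or_ge d i with h | h
    · rw [ee_of_gt v h, map_zero, smul_zero, zero_add]
      rcases Nat.eq_or_lt_of_le (show d + 1 ≤ i from h) with h1 | h1
      · rw [← h1, phi_last, zero_smul]
      · rw [ee_of_gt v (show d < i - 1 by omega), smul_zero]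
    · rw [upper_ee hvAs phi_zero i h, lam, xs_inv, xs]
  have hphi := fun i => phi_eq (d := d) ha hb hc hq i
  have hne : ∀ i < d, phi a b c q d (i + 1) ≠ 0 := fun i hi =>
    entry_ne_zero hL v _ _ _ hA hAs (i + 1) (by omega) hi
  have hg : ∀ i < d, a⁻¹ - c / b * (xs q d (i + 1) * q) ≠ 0 := by
    intro i hi h
    apply hne i hi
    rw [hphi, h, mul_zero, zero_mul]
  have hk : ∀ i < d, b - a / c * (xs q d (i + 1) * q) ≠ 0 := by
    intro i hi h
    apply hne i hi
    rw [hphi, h, mul_zero]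
  set y : ℕ → K := fun i => (a⁻¹ - c / b * (xs q d i * q))⁻¹ with hy
  set z : ℕ → K := fun i => phi a b c q d i * (b - a / c * (xs q d i * q))⁻¹ with hz
  have hz0 : z 0 = 0 := by
    rw [hz]
    simp only [phi_zero, zero_mul]
  have hzd : z (d + 1) = 0 := by
    rw [hz]
    simp only [phi_last, zero_mul]
  have hy1 : ∀ i < d, y (i + 1) * (a⁻¹ - c / b * (xs q d (i + 1) * q)) = 1 := fun i hi =>
    inv_mul_cancel₀ (hg i hi)
  have hz1 : ∀ i < d, z (i + 1) * (b - a / c * (xs q d (i + 1) * q)) =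
      phi a b c q d (i + 1) := fun i hi => by
    rw [hz]
    simp only
    rw [mul_assoc, inv_mul_cancel₀ (hk i hi), mul_one]
  have hw : ∀ i ≤ d + 1, y i * z i = ws q d i := by
    intro i hi
    cases i with
    | zero => rw [hz0, mul_zero, ws_zero hq]
    | succ j =>
      rcases Nat.eq_or_lt_of_le (Nat.le_of_succ_le_succ hi) with h | h
      · rw [h, hzd, mul_zero, ws_last hq]
      · have h1 := hg j h
        have h2 := hk j h
        rw [hy, hz]
        simp only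
        rw [hphi (j + 1)]
        generalize a⁻¹ - c / b * (xs q d (j + 1) * q) = G at *
        generalize b - a / c * (xs q d (j + 1) * q) = H at *
        field_simp
  have hrec : ∀ i ≤ d, q * (y i * z i) - q⁻¹ * (y (i + 1) * z (i + 1)) =
      (q - q⁻¹) * (1 - (xs q d i)⁻¹ ^ 2) := by
    intro i hi
    rw [hw i (by omega), hw (i + 1) (by omega), ws_rec hq i]
  -- the representation
  let f : Gen → Module.End K V := fun g => match g with
    | Gen.X => XX v (xs q d)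
    | Gen.Xinv => XI v (xs q d)
    | Gen.Y => YY v (xs q d) y
    | Gen.Z => ZZ v (xs q d) z
  have hrel : ∀ ⦃s t : FreeAlgebra K Gen⦄, Rel q s t →
      FreeAlgebra.lift K f s = FreeAlgebra.lift K f t := by
    intro s t hst
    cases hst with
    | x_xinv => simpa [f] using mul_XI v (xs q d) hx
    | xinv_x => simpa [f] using XI_mul v (xs q d) hx
    | xy => simpa [f] using rel_xy v q (xs q d) y hq hx hx'
    | yz => simpa [f] using rel_yz v q (xs q d) y z hq hx hx' hz0 hzd hrec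
    | zx => simpa [f] using rel_zx v q (xs q d) z hq hx hx' hz0 hzd
  let ρ : Uq q →ₐ[K] Module.End K V := RingQuot.liftAlgHom K ⟨FreeAlgebra.lift K f, hrel⟩
  have hρ : ∀ g, ρ (gen q g) = f g := by
    intro g
    rw [gen, RingQuot.liftAlgHom_mkAlgHom_apply, FreeAlgebra.lift_ι_apply]
  have hfA : A = a • ρ (gen q Gen.X) + a⁻¹ • ρ (gen q Gen.Y) + (c / b) • ((q - q⁻¹)⁻¹ •
        (ρ (gen q Gen.X) * ρ (gen q Gen.Y) - ρ (gen q Gen.Y) * ρ (gen q Gen.X))) := by
    rw [hρ, hρ]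
    exact form_A v q (xs q d) y hq hh hx' a b c A (fun i _ => hA i) hy1
  have hfAs : Astar = b • ρ (gen q Gen.Z) + b⁻¹ • ρ (gen q Gen.X) + (a / c) • ((q - q⁻¹)⁻¹ •
        (ρ (gen q Gen.Z) * ρ (gen q Gen.X) - ρ (gen q Gen.X) * ρ (gen q Gen.Z))) := by
    rw [hρ, hρ]
    exact form_Astar v q (xs q d) z hq hh hx hx' hz0 hzd a b c _ phi_zero Astar
      (fun i _ => hAs i) hz1
  refine ⟨?_, ρ, ?_, hfA, hfAs, ?_⟩
  · exact ⟨⟨v 0, 0, v.ne_zero 0⟩⟩
  · intro W hW
    refine irred hL W ?_ ?_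
    · intro w hw
      have h1 := hW (a • gen q Gen.X + a⁻¹ • gen q Gen.Y + (c / b) • ((q - q⁻¹)⁻¹ •
        (gen q Gen.X * gen q Gen.Y - gen q Gen.Y * gen q Gen.X))) w hw
      simp only [map_add, map_smul, map_sub, map_mul] at h1
      rw [hfA]
      exact h1
    · intro w hw
      have h1 := hW (b • gen q Gen.Z + b⁻¹ • gen q Gen.X + (a / c) • ((q - q⁻¹)⁻¹ •
        (gen q Gen.Z * gen q Gen.X - gen q Gen.X * gen q Gen.Z))) w hw
      simp only [map_add, map_smul, map_sub, map_mul] at h1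
      rw [hfAs]
      exact h1
  · rw [hρ, hρ]
    refine form_Aeps v q (xs q d) y z hq hh hs hx hx' hz0 hzd a b c (q ^ (d + 1)) ha hb hc
      (pow_ne_zero _ hq) _ phi_zero A Astar Aeps hA hAs hy1 hz1 (ws q d) hw (fun i => rfl)
      hphi ?_
    rw [← inv_pow]
    exact hE

end Pool.Agent.Results.MP_dc3d2a_al.EquitableAction
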